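import Mathlib
import Pool.Agent.H176M.Pal2

set_option autoImplicit false

/-!
# The correlation functions of the exponents, for almost every amplitude

For real `β > 0` and a prime `p` let `W β p` be the `p`-rough part (the product, with multiplicity,
of the prime factors larger than `p`) of the largest integer below `β * 2 ^ p`.  For `β = 1` this is
the Mersenne number `2 ^ p - 1` itself.  The exponents of `β` are the primes `p` with `W β p` prime;
let `E β x y` be the set of the exponents in `(x, y]`, and let `c = e ^ γ / log 2`.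

We prove that for almost every `β > 0`, for all `k` and all real `a_i < b_i` (`i < k`) with `3 / 2 < a_i`
and `(3 / 2) b_i < a_j` for `i < j`, the number of the tuples `(p, p_0, ..., p_(k-1))` of exponents of
`β` with `p ≤ n` and `a_i p < p_i ≤ b_i p` is asymptotic to `c log n` times the product of the
`c log (b_i / a_i)`.  These are the correlation functions of a Poisson process of intensity `c` on the
logarithmic scale, at all ratios larger than `3 / 2`.  For `k = 0` this is the density law.  In
particular every finite pattern of ratios larger than `3 / 2` between consecutive exponents of the tuple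
occurs infinitely often, with the expected frequency.

Proof.  A law of large numbers over the scales `R ^ j` for products of the numbers of exponents in
windows, by truncation and by the independence of the exponents of the leading digits, which rests on
the primes in almost all intervals of length `X ^ (1/3 + ε)` (project UT of this library).
-/

namespace Pool.Agent.Results.MP_9b2bac_nt.CorrelationFunctions

open Filter Topology MeasureTheory

/-- The product, with multiplicity, of the prime factors of `m` that are larger than `p`. -/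
def roughPart (p m : ℕ) : ℕ := (m.primeFactorsList.filter (fun r => p < r)).prod

/-- The `p`-rough part of the largest integer below `β * 2 ^ p`. -/
noncomputable def W (β : ℝ) (p : ℕ) : ℕ := roughPart p (⌈β * 2 ^ p⌉₊ - 1)

/-- The set of the exponents in the interval `(x, y]`: the primes `p` in this interval for which
`W β p` is prime. -/
noncomputable def E (β x y : ℝ) : Finset ℕ :=
  (Finset.Ioc ⌊x⌋₊ ⌊y⌋₊).filter (fun p => p.Prime ∧ (W β p).Prime)

lemma W_one {p : ℕ} (hp : p.Prime) : W 1 p = 2 ^ p - 1 := by
  have e1 : ⌈(1 : ℝ) * 2 ^ p⌉₊ = 2 ^ p := by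
    rw [one_mul]
    have : ((2 : ℝ) ^ p) = ((2 ^ p : ℕ) : ℝ) := by push_cast; rfl
    rw [this, Nat.ceil_natCast]
  unfold W
  rw [e1]
  unfold roughPart
  rw [List.filter_eq_self.2, Nat.prod_primeFactorsList]
  · have h := hp.two_le
    have : 2 ^ 2 ≤ 2 ^ p := Nat.pow_le_pow_right (by norm_num) h
    omega
  · intro r hr
    obtain ⟨hr1, hr2⟩ := Nat.mem_primeFactorsList'.1 hr
    have hr2' := hr2.1
    have : Fact r.Prime := ⟨hr1⟩
    have : Fact p.Prime := ⟨hp⟩
    have h1 : (2 : ZMod r) ^ p = 1 := by
      have h3 : ((2 ^ p - 1 : ℕ) : ZMod r) = 0 := (ZMod.natCast_eq_zero_iff _ _).2 hr2'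
      rw [Nat.cast_sub Nat.one_le_two_pow] at h3
      push_cast at h3
      exact sub_eq_zero.1 h3
    have h2 : (2 : ZMod r) ≠ 1 := by
      intro h
      have : (1 : ZMod r) = 0 := by linear_combination h
      exact one_ne_zero this
    have h4 : orderOf (2 : ZMod r) = p := orderOf_eq_prime h1 h2
    have h5 : (2 : ZMod r) ≠ 0 := by
      intro h
      rw [h, zero_pow hp.ne_zero] at h1
      exact zero_ne_one h1
    have h6 : orderOf (2 : ZMod r) ∣ r - 1 := orderOf_dvd_of_pow_eq_one (ZMod.pow_card_sub_one_eq_one h5)
    rw [h4] at h6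
    have h7 : p ≤ r - 1 := Nat.le_of_dvd (by have := hr1.two_le; omega) h6
    have := hr1.two_le
    simp only [decide_eq_true_eq]
    omega

lemma E_eq (β x y : ℝ) : E β x y = (Pool.Agent.H176M.Pr x y).filter (fun p => (W β p).Prime) := by
  unfold E Pool.Agent.H176M.Pr
  rw [Finset.filter_filter]

lemma ff_W {β : ℝ} (hβ : 0 < β) (p : ℕ) :
    Pool.Agent.H305R2.ff p (Real.log β + p * Real.log 2) = if (W β p).Prime then 1 else 0 := by
  unfold Pool.Agent.H305R2.ff W Pool.Agent.H305R2.NN
  rw [Pool.Agent.H176M.exp_add_two, Real.exp_log hβ]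
  rfl

lemma E_card {β : ℝ} (hβ : 0 < β) (x y : ℝ) :
    ((E β x y).card : ℝ) = Pool.Agent.H176M.cT (Pool.Agent.H176M.Pr x y) (Real.log β) := by
  rw [E_eq]
  unfold Pool.Agent.H176M.cT
  rw [Finset.card_eq_sum_ones, Finset.sum_filter]
  push_cast
  refine Finset.sum_congr rfl fun p _ => ?_
  rw [ff_W hβ]

/-- At `β = 1` the numbers are the Mersenne numbers; the correlation functions of the exponents, for
almost every amplitude. -/
theorem result :
    (∀ p : ℕ, p.Prime → W 1 p = 2 ^ p - 1) ∧
    (∀ᵐ β : ℝ, 0 < β → ∀ (k : ℕ) (a b : ℕ → ℝ), (∀ i < k, 3 / 2 < a i ∧ a i < b i) →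
      (∀ i j : ℕ, i < j → j < k → 3 / 2 * b i < a j) →
      Tendsto (fun n : ℕ => (∑ p ∈ E β 0 n, ∏ i ∈ Finset.range k,
        ((E β (a i * p) (b i * p)).card : ℝ)) / Real.log n) atTop
        (𝓝 (Real.exp Real.eulerMascheroniConstant / Real.log 2 * ∏ i ∈ Finset.range k,
          Real.exp Real.eulerMascheroniConstant / Real.log 2 * Real.log (b i / a i)))) := by
  refine ⟨fun p hp => W_one hp, ?_⟩
  have h1 : ∀ᵐ β : ℝ, 0 < β → Pool.Agent.H176M.LQ (Real.log β) :=
    Pool.Agent.W66X.ae_of_exp' (P := fun β : ℝ => Pool.Agent.H176M.LQ (Real.log β)) (by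
      filter_upwards [Pool.Agent.H176M.ae_LQ Pool.Agent.H176M.silS] with t ht
      rw [Real.log_exp]
      exact ht)
  filter_upwards [h1] with β hβ hβ0 k a b h2 h3
  have h4 := Pool.Agent.H176M.corr_of_LQ (hβ hβ0) h2 h3
  refine h4.congr fun n => ?_
  congr 1
  unfold Pool.Agent.H176M.CS
  rw [E_eq, Finset.sum_filter]
  refine Finset.sum_congr rfl fun p _ => ?_
  simp only [E_card hβ0]
  rw [ff_W hβ0]
  split_ifs <;> simp

end Pool.Agent.Results.MP_9b2bac_nt.CorrelationFunctions
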