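import Mathlib
import Pool.Agent.H176M.Cor

set_option autoImplicit false

/-!
# Distant exponents are independent of each other and of the leading digits

For real `β > 0` let `D β r` be the largest integer below `β * 2 ^ r` (the leading binary digits of
`β`, up to the position `r` behind the binary point), and for a prime `p` let `W β p` be the
`p`-rough part (the product, with multiplicity, of the prime factors larger than `p`) of `D β p`.
For `β = 1` this is the Mersenne number `2 ^ p - 1` itself.  The exponents of `β` are the primes `p`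
with `W β p` prime.  Let `c = e ^ γ / log 2` and let `v T` be the sum of `log p / p` over `p` in the
finite set `T` of primes.  We prove:

* the numbers of exponents in finite sets `T_i` of primes of the windows `(a_i z, b_i z]` with
  `(3/2) b_i < a_j` for `i < j` are, as `z → ∞`, independent in the mean of each other and of the
  leading `ρ z` digits of `β`, for `(3/2) ρ < a_i`: for every `η > 0`, every `A` and all large `z`,
  uniformly in the sets `T_i` and in the functions `F` of the leading digits with `|F| ≤ 1`, the mean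
  of `F` times the product of these numbers is the product of the `c v (T_i)` times the mean of `F`,
  up to `η` times the product of the `v (T_i)` times (the mean of `|F|`, plus `z ^ (-A)`);
* in particular the mean of the product of the numbers of exponents in the windows tends to the
  product of the `c log (b_i / a_i)`.

The input from number theory is that almost all intervals of length `X ^ (1/3 + ε)` below `X` contain the
expected number of primes, with a saving of any power of `log X` in mean square (project UT of this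
library).  It is used for the intervals formed by the integers with given leading digits, which is
where the ratio `3/2` comes from.
-/

namespace Pool.Agent.Results.MP_9b2bac_nt.LeadingDigits

open Filter Topology MeasureTheory

/-- The product, with multiplicity, of the prime factors of `m` that are larger than `p`. -/
def roughPart (p m : ℕ) : ℕ := (m.primeFactorsList.filter (fun r => p < r)).prod

/-- The largest integer below `β * 2 ^ r`. -/
noncomputable def D (β : ℝ) (r : ℕ) : ℕ := ⌈β * 2 ^ r⌉₊ - 1

/-- The `p`-rough part of the largest integer below `β * 2 ^ p`. -/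
noncomputable def W (β : ℝ) (p : ℕ) : ℕ := roughPart p (D β p)

/-- The number of `p` in the finite set `T` for which `W β p` is prime. -/
noncomputable def N (T : Finset ℕ) (β : ℝ) : ℕ := (T.filter (fun p => (W β p).Prime)).card

/-- The sum of `log p / p` over `p` in the finite set `T`. -/
noncomputable def v (T : Finset ℕ) : ℝ := ∑ p ∈ T, Real.log p / p

/-- The set of the primes in the interval `(x, y]`. -/
noncomputable def P (x y : ℝ) : Finset ℕ := (Finset.Ioc ⌊x⌋₊ ⌊y⌋₊).filter Nat.Prime

lemma W_one {p : ℕ} (hp : p.Prime) : W 1 p = 2 ^ p - 1 := by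
  have e1 : ⌈(1 : ℝ) * 2 ^ p⌉₊ = 2 ^ p := by
    rw [one_mul]
    have : ((2 : ℝ) ^ p) = ((2 ^ p : ℕ) : ℝ) := by push_cast; rfl
    rw [this, Nat.ceil_natCast]
  unfold W D
  rw [e1]
  unfold roughPart
  rw [List.filter_eq_self.2, Nat.prod_primeFactorsList]
  · have h := hp.two_le
    have : 2 ^ 2 ≤ 2 ^ p := Nat.pow_le_pow_right (by norm_num) h
    omega
  · intro r hr
    obtain ⟨hr1, hr2⟩ := Nat.mem_primeFactorsList'.1 hr
    have hr2' := hr2.1
    have : Fact r.Prime := ⟨hr1⟩
    have : Fact p.Prime := ⟨hp⟩
    have h1 : (2 : ZMod r) ^ p = 1 := by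
      have h3 : ((2 ^ p - 1 : ℕ) : ZMod r) = 0 := (ZMod.natCast_eq_zero_iff _ _).2 hr2'
      rw [Nat.cast_sub Nat.one_le_two_pow] at h3
      push_cast at h3
      exact sub_eq_zero.1 h3
    have h2 : (2 : ZMod r) ≠ 1 := by
      intro h
      have : (1 : ZMod r) = 0 := by linear_combination h
      exact one_ne_zero this
    have h4 : orderOf (2 : ZMod r) = p := orderOf_eq_prime h1 h2
    have h5 : (2 : ZMod r) ≠ 0 := by
      intro h
      rw [h, zero_pow hp.ne_zero] at h1
      exact zero_ne_one h1
    have h6 : orderOf (2 : ZMod r) ∣ r - 1 := orderOf_dvd_of_pow_eq_one (ZMod.pow_card_sub_one_eq_one h5)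
    rw [h4] at h6
    have h7 : p ≤ r - 1 := Nat.le_of_dvd (by have := hr1.two_le; omega) h6
    have := hr1.two_le
    simp only [decide_eq_true_eq]
    omega

lemma D_exp (u : ℝ) (r : ℕ) : D (Real.exp u) r = Pool.Agent.H305R2.NN (u + r * Real.log 2) := by
  unfold D Pool.Agent.H305R2.NN
  rw [Pool.Agent.H176M.exp_add_two]

lemma N_exp (T : Finset ℕ) (u : ℝ) : (N T (Real.exp u) : ℝ) = Pool.Agent.H176M.cT T u := by
  unfold N Pool.Agent.H176M.cT
  rw [Finset.card_eq_sum_ones, Finset.sum_filter]
  push_cast
  refine Finset.sum_congr rfl fun p _ => ?_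
  unfold Pool.Agent.H305R2.ff W
  rw [D_exp]
  rfl

/-- At `β = 1` the numbers are the Mersenne numbers; the joint correlations of distant exponents and
their independence of the leading digits; in particular the correlations of distant windows. -/
theorem result :
    (∀ p : ℕ, p.Prime → W 1 p = 2 ^ p - 1) ∧
    (∀ (k A : ℕ) (ρ : ℝ) (a b : ℕ → ℝ), 0 ≤ ρ → (∀ i < k, 0 < a i ∧ a i < b i) →
      (∀ i j : ℕ, i < j → j < k → 3 / 2 * b i < a j) → (∀ i < k, 3 / 2 * ρ < a i) →
      ∀ s t : ℝ, s ≤ t → ∀ η : ℝ, 0 < η → ∀ᶠ z : ℝ in atTop,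
      ∀ T : ℕ → Finset ℕ, (∀ i < k, ∀ p ∈ T i, p.Prime ∧ a i * z < p ∧ (p : ℝ) ≤ b i * z) →
      ∀ F : ℕ → ℝ, (∀ n, |F n| ≤ 1) →
        |(∫ u in s..t, F (D (Real.exp u) ⌊ρ * z⌋₊) *
            ∏ i ∈ Finset.range k, (N (T i) (Real.exp u) : ℝ)) -
          (∏ i ∈ Finset.range k, Real.exp Real.eulerMascheroniConstant / Real.log 2 * v (T i)) *
            ∫ u in s..t, F (D (Real.exp u) ⌊ρ * z⌋₊)| ≤
        η * (∏ i ∈ Finset.range k, v (T i)) *
          ((∫ u in s..t, |F (D (Real.exp u) ⌊ρ * z⌋₊)|) + 1 / z ^ A)) ∧
    (∀ (k : ℕ) (a b : ℕ → ℝ), (∀ i < k, 0 < a i ∧ a i < b i) →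
      (∀ i j : ℕ, i < j → j < k → 3 / 2 * b i < a j) → ∀ s t : ℝ, s ≤ t →
      Tendsto (fun z : ℝ => ∫ u in s..t,
        ∏ i ∈ Finset.range k, (N (P (a i * z) (b i * z)) (Real.exp u) : ℝ)) atTop
        (𝓝 ((t - s) * ∏ i ∈ Finset.range k,
          Real.exp Real.eulerMascheroniConstant / Real.log 2 * Real.log (b i / a i)))) := by
  have hcc : Pool.Agent.H176M.cc = Real.exp Real.eulerMascheroniConstant / Real.log 2 := rfl
  refine ⟨fun p hp => W_one hp, ?_, ?_⟩
  · intro k A ρ a b hρ h0 h1 h2 s t hst η hη
    filter_upwards [Pool.Agent.H176M.joint Pool.Agent.H176M.silS ρ hρ a b A k h0 h1 h2 hst η hη,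
      eventually_gt_atTop 0] with z hz hz0 T hT F hF
    have hTs : ∀ i < k, T i ⊆ Pool.Agent.H176M.Pr (a i * z) (b i * z) := fun i hi p hp => by
      obtain ⟨ai, abi⟩ := h0 i hi
      have bi : 0 < b i := ai.trans abi
      rw [Pool.Agent.H176M.mem_Pr (by positivity) (by positivity)]
      exact hT i hi p hp
    have h3 := hz T hTs F hF
    unfold Pool.Agent.H176M.ZT at h3
    simp only [intervalIntegral.integral_of_le hst, D_exp, N_exp]
    exact h3
  · intro k a b h0 h1 s t hst
    -- the product of the weights
    have hv : Tendsto (fun z : ℝ => ∏ i ∈ Finset.range k, v (P (a i * z) (b i * z))) atTop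
        (𝓝 (∏ i ∈ Finset.range k, Real.log (b i / a i))) :=
      tendsto_finsetProd _ fun i hi => by
        obtain ⟨ai, abi⟩ := h0 i (Finset.mem_range.1 hi)
        exact Pool.Agent.H176M.mertens_window ai abi
    have hvc : Tendsto (fun z : ℝ => (t - s) * ∏ i ∈ Finset.range k,
        Real.exp Real.eulerMascheroniConstant / Real.log 2 * v (P (a i * z) (b i * z))) atTop
        (𝓝 ((t - s) * ∏ i ∈ Finset.range k,
          Real.exp Real.eulerMascheroniConstant / Real.log 2 * Real.log (b i / a i))) :=
      (tendsto_finsetProd _ fun i hi => by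
        obtain ⟨ai, abi⟩ := h0 i (Finset.mem_range.1 hi)
        exact (Pool.Agent.H176M.mertens_window ai abi).const_mul _).const_mul _
    rw [Metric.tendsto_nhds]
    intro η hη
    set Lv := ∏ i ∈ Finset.range k, Real.log (b i / a i) with hLv
    have hLv0 : 0 ≤ Lv := Finset.prod_nonneg fun i hi => by
      obtain ⟨ai, abi⟩ := h0 i (Finset.mem_range.1 hi)
      exact Real.log_nonneg ((one_le_div ai).2 abi.le)
    have hη' : 0 < η / (2 * ((Lv + 1) * (t - s + 1))) := by
      have : 0 ≤ t - s := by linarith
      positivity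
    filter_upwards [Pool.Agent.H176M.joint Pool.Agent.H176M.silS 0 le_rfl a b 0 k h0 h1
      (fun i hi => by have := (h0 i hi).1; linarith) hst _ hη',
      (Metric.tendsto_nhds.1 hvc) (η / 2) (by linarith),
      hv.eventually_le_const (show Lv < Lv + 1 by linarith), eventually_gt_atTop 0] with z hz1 hz2 hz3 hz0
    have h3 := hz1 (fun i => Pool.Agent.H176M.Pr (a i * z) (b i * z)) (fun i _ => subset_rfl)
      (fun _ => 1) (fun n => by norm_num)
    have h4 : ∫ u in Set.Ioc s t, (1 : ℝ) = t - s := by
      rw [setIntegral_const, smul_eq_mul, mul_one, Real.volume_real_Ioc_of_le hst]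
    simp only [abs_one, h4, pow_zero, div_one] at h3
    unfold Pool.Agent.H176M.ZT at h3
    simp only [one_mul] at h3
    rw [hcc] at h3
    have e1 : ∫ u in s..t, ∏ i ∈ Finset.range k, (N (P (a i * z) (b i * z)) (Real.exp u) : ℝ) =
        ∫ u in Set.Ioc s t, ∏ i ∈ Finset.range k,
          Pool.Agent.H176M.cT (Pool.Agent.H176M.Pr (a i * z) (b i * z)) u := by
      simp only [intervalIntegral.integral_of_le hst, N_exp]
      rfl
    have h5 : η / (2 * ((Lv + 1) * (t - s + 1))) *
        (∏ i ∈ Finset.range k, Pool.Agent.H176M.vT (Pool.Agent.H176M.Pr (a i * z) (b i * z))) *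
        (t - s + 1) ≤ η / 2 := by
      have hts : 0 < t - s + 1 := by linarith
      calc _ ≤ η / (2 * ((Lv + 1) * (t - s + 1))) * (Lv + 1) * (t - s + 1) := by
            refine mul_le_mul_of_nonneg_right (mul_le_mul_of_nonneg_left ?_ hη'.le) hts.le
            exact hz3
        _ = η / 2 := by field_simp
    have h6 := h3.trans h5
    rw [Real.dist_eq, e1]
    rw [Real.dist_eq] at hz2
    have e2 : (∏ i ∈ Finset.range k, Real.exp Real.eulerMascheroniConstant / Real.log 2 *
        v (P (a i * z) (b i * z))) * (t - s) =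
        (∏ i ∈ Finset.range k, Real.exp Real.eulerMascheroniConstant / Real.log 2 *
        Pool.Agent.H176M.vT (Pool.Agent.H176M.Pr (a i * z) (b i * z))) * (t - s) := rfl
    rw [← e2] at h6
    rw [abs_lt] at hz2 ⊢
    rw [abs_le] at h6
    constructor <;> linarith [h6.1, h6.2, hz2.1, hz2.2]

end Pool.Agent.Results.MP_9b2bac_nt.LeadingDigits
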