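import Mathlib
import Pool.Agent.Helper53.GD.Forms

/-!
# Large divisors of Mersenne numbers have no sparse multiples

Let `p` be a prime and `M_p = 2 ^ p - 1`.

* If `z` is a sum of `k` terms `± c 2 ^ i` with `c ≤ H` and not a multiple of `M_p`, then the greatest common
  divisor of `z` and `M_p` is at most `(2 k H) ^ (N ^ (k - 1)) 2 ^ (2 p / N)` for all `N` with `N ^ (k - 1) < p`.
* The same for integers `z` whose binary digits are periodic with a period `R < p` up to few exceptions.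
* So for every `δ > 0` there is `c > 0` such that for all large primes `p` and every divisor `x ≥ 2 ^ (δ p)` of
  `M_p`, all multiples `z` of `x`, except the multiples of `M_p`, have more than `c log p` binary digits which
  differ from the digit `R` places higher, for every period `1 ≤ R < p`; in particular more than `(c / 2) log p`
  binary digits `1`.
* In particular this holds for the larger factor in every factorization of a composite Mersenne number.

Proof. By Dirichlet's theorem the exponents are near to the multiples of `p / q` for some `q ≤ N ^ (k - 1)`. The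
determinant of the multiplication by the sparse integer in the number field generated by a root of
`X ^ q = 2 ^ (- p)` is an integer divisible by the common divisor, small, and not zero.
-/

set_option autoImplicit false

namespace Pool.Agent.Results.MP_9b2bac_nt.SparseMultiples

/-- `z` is a sum of at most `k` terms `c * b ^ i`, with different exponents `i` and integers `c` with
`|c| ≤ H` -/
def Few (b k H : ℕ) (z : ℤ) : Prop :=
  ∃ (s : Finset ℕ) (c : ℕ → ℤ), s.card ≤ k ∧ (∀ i ∈ s, |c i| ≤ H) ∧ z = ∑ i ∈ s, c i * (b : ℤ) ^ i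

/-- the digit of `|x|` at `b ^ i`, in base `b` -/
def dig (b : ℕ) (x : ℤ) (i : ℕ) : ℕ := x.natAbs / b ^ i % b

/-- in the expansion of `x` in base `b` (which begins with infinitely many zeros) at most `k` digits
are different from the digit `R` places before it -/
def FewChanges (b R k : ℕ) (x : ℤ) : Prop := Set.encard {i : ℕ | dig b x i ≠ dig b x (i + R)} ≤ k

lemma nonpower_two : ∀ p : ℕ, p.Prime → ∀ c : ℕ, c ^ p ≠ 2 := by
  intro p hp c h
  have h2 := hp.two_le
  rcases Nat.lt_or_ge c 2 with hc | hc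
  · have h3 : c ^ p ≤ 1 ^ p := Nat.pow_le_pow_left (by omega) p
    rw [one_pow] at h3
    omega
  · have h3 : 2 ^ p ≤ c ^ p := Nat.pow_le_pow_left hc p
    have h4 : 2 ^ 2 ≤ 2 ^ p := Nat.pow_le_pow_right (by norm_num) h2
    omega

lemma geom_two (p : ℕ) : ∑ i ∈ Finset.range p, ((2 : ℕ) : ℤ) ^ i = 2 ^ p - 1 := by
  have h := geom_sum_mul ((2 : ℕ) : ℤ) p
  push_cast at h ⊢
  linarith

lemma prime_not_dvd_one {p : ℕ} (hp : p.Prime) : ¬ p ∣ 2 - 1 := by
  intro h
  exact hp.one_lt.ne' (Nat.dvd_one.1 h)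

theorem changes_asym {δ : ℝ} (hδ : 0 < δ) :
    ∃ c : ℝ, 0 < c ∧ ∃ p₀ : ℕ, ∀ p : ℕ, p₀ ≤ p → p.Prime → ∀ (k R : ℕ) (x z : ℤ),
      x ∣ 2 ^ p - 1 → (2 : ℝ) ^ (δ * p) ≤ |(x : ℝ)| → x ∣ z → ¬ ((2 : ℤ) ^ p - 1) ∣ z →
      1 ≤ R → R < p → FewChanges 2 R k z → c * Real.log p < k := by
  obtain ⟨c, hc, n₀, h⟩ := Pool.Agent.Helper53.GD.repunit_asym_changes (b := 2) le_rfl nonpower_two hδ
  refine ⟨c, hc, n₀, ?_⟩
  intro p hp0 hp k R x z hx hxδ hxz hnot hR hRp hz
  refine h p hp0 hp k R x z ?_ (by push_cast; exact hxδ) hxz ?_ hR hRp hz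
  · rw [geom_two]; exact hx
  · rw [geom_two]; exact hnot

theorem result :
    -- common divisors with sparse integers
    (∀ (p k H N : ℕ) (z : ℤ), p.Prime → 1 ≤ N → N ^ (k - 1) < p → Few 2 k H z →
      ¬ ((2 : ℤ) ^ p - 1) ∣ z →
      Int.gcd z (2 ^ p - 1) ≤ (k * H * 2) ^ (N ^ (k - 1)) * 2 ^ (2 * p / N)) ∧
    -- common divisors with integers whose digits are periodic up to few exceptions
    (∀ (p k R N : ℕ) (z : ℤ), p.Prime → 1 ≤ N → 1 ≤ R → R < p → N ^ (k + min k R - 1) < p →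
      FewChanges 2 R k z → ¬ ((2 : ℤ) ^ p - 1) ∣ z →
      Int.gcd z (2 ^ p - 1) ≤ ((k + min k R) * 2) ^ (N ^ (k + min k R - 1)) * 2 ^ (2 * p / N)) ∧
    -- multiples of large divisors
    (∀ δ : ℝ, 0 < δ → ∃ c : ℝ, 0 < c ∧ ∃ p₀ : ℕ, ∀ p : ℕ, p₀ ≤ p → p.Prime →
      ∀ (k R : ℕ) (x z : ℤ), x ∣ 2 ^ p - 1 → (2 : ℝ) ^ (δ * p) ≤ |(x : ℝ)| → x ∣ z →
      ¬ ((2 : ℤ) ^ p - 1) ∣ z → 1 ≤ R → R < p → FewChanges 2 R k z → c * Real.log p < k) ∧
    -- composite Mersenne numbers
    (∃ c : ℝ, 0 < c ∧ ∃ p₀ : ℕ, ∀ p : ℕ, p₀ ≤ p → p.Prime → ∀ x y : ℤ, 1 < y → y ≤ x →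
      x * y = 2 ^ p - 1 → ∀ (k R : ℕ) (z : ℤ), x ∣ z → ¬ ((2 : ℤ) ^ p - 1) ∣ z →
      1 ≤ R → R < p → FewChanges 2 R k z → c * Real.log p < k) := by
  refine ⟨?_, ?_, fun δ hδ => changes_asym hδ, ?_⟩
  · intro p k H N z hp hN hNp hz hnot
    have hrough : ∀ r : ℕ, r.Prime → r ∣ p → N ^ (k - 1) < r := by
      intro r hr hrp
      rw [(Nat.prime_dvd_prime_iff_eq hr hp).1 hrp]
      exact hNp
    have h := Pool.Agent.Helper53.GD.repunit_few (b := 2) (n := p) (k := k) (H := H) (N := N) le_rfl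
      nonpower_two hp.one_lt.le hN hrough (z := z) hz (by rw [geom_two]; exact hnot)
    rw [geom_two] at h
    exact h
  · intro p k R N z hp hN hR hRp hNp hz hnot
    have h := Pool.Agent.Helper53.GD.repunit_changes (b := 2) (n := p) (k := k) (N := N) le_rfl
      nonpower_two hp (prime_not_dvd_one hp) hN hR hRp hNp (z := z) hz (by rw [geom_two]; exact hnot)
    rw [geom_two] at h
    simpa using h
  · obtain ⟨c, hc, p₀, h⟩ := changes_asym (by norm_num : (0 : ℝ) < 1 / 4)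
    refine ⟨c, hc, p₀, ?_⟩
    intro p hp0 hp x y hy hyx hxy k R z hxz hnot hR hRp hz
    refine h p hp0 hp k R x z ⟨y, hxy.symm⟩ ?_ hxz hnot hR hRp hz
    have hx : 1 < x := lt_of_lt_of_le hy hyx
    have hp2 := hp.two_le
    have h1 : (2 : ℤ) ^ (p - 1) ≤ x ^ 2 := by
      have e1 : (2 : ℤ) ^ p = 2 * 2 ^ (p - 1) := by
        rw [← pow_succ']
        congr 1
        omega
      have e2 : (1 : ℤ) ≤ 2 ^ (p - 1) := one_le_pow₀ (by norm_num)
      nlinarith
    have h2 : (2 : ℤ) ^ p ≤ x ^ 4 := by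
      calc (2 : ℤ) ^ p ≤ 2 ^ (2 * (p - 1)) := pow_le_pow_right₀ (by norm_num) (by omega)
        _ = (2 ^ (p - 1)) ^ 2 := by rw [mul_comm, pow_mul]
        _ ≤ (x ^ 2) ^ 2 := pow_le_pow_left₀ (by positivity) h1 2
        _ = x ^ 4 := by ring
    have h3 : (2 : ℝ) ^ p ≤ (x : ℝ) ^ 4 := by exact_mod_cast h2
    have hx0 : (0 : ℝ) < x := by exact_mod_cast (by linarith : (0 : ℤ) < x)
    rw [abs_of_pos hx0]
    have h4 : ((2 : ℝ) ^ (1 / 4 * (p : ℝ))) ^ 4 ≤ (x : ℝ) ^ 4 := by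
      rw [← Real.rpow_natCast, ← Real.rpow_mul (by norm_num)]
      have e3 : 1 / 4 * (p : ℝ) * ((4 : ℕ) : ℝ) = p := by push_cast; ring
      rw [e3, Real.rpow_natCast]
      exact h3
    exact (pow_le_pow_iff_left₀ (by positivity) hx0.le (by norm_num)).1 h4

end Pool.Agent.Results.MP_9b2bac_nt.SparseMultiples
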