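import Mathlib
import Pool.Agent.H176M.Law

set_option autoImplicit false

/-!
# The Lenstra-Pomerance-Wagstaff law in base two for every set of primes of divergent weight

For real `β > 0` and a prime `p` let `W β p` be the `p`-rough part (the product, with multiplicity,
of the prime factors larger than `p`) of the largest integer below `β * 2 ^ p`.  For `β = 1` this is
the Mersenne number `2 ^ p - 1` itself.  For a set `S` let `M S β n` be the number of primes `p ≤ n`
in `S` with `W β p` prime, and let `V S n` be the sum of `log p / p` over the primes `p ≤ n` in `S`.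
We prove that for every set `S` of primes with `V S n → ∞`, however sparse, and for almost every
`β > 0`, `M S β n = (e ^ γ / log 2) V S n + O((V S n) ^ (1/2) (log V S n) ^ 2)`; for the set of all
primes this is `M β n = (e ^ γ / log 2) log n + O((log n) ^ (1/2) (log log n) ^ 2)`.

Proof.  The row sums of the correlation matrix of the events are bounded by the weight of the row: for
two exponents `p ≤ q / 2` the event at `p` is determined by the leading digits of the integer of
level `q`, and almost all intervals formed by the integers with given leading digits contain the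
expected number of primes (primes in almost all intervals of length `X ^ (1/3 + ε)`, project UT of
this library); for `q / 2 < p < q` the upper bound sieve and the sparsity of the primes suffice.
-/

namespace Pool.Agent.Results.MP_9b2bac_nt.SparseSetsLaw

open Filter Topology MeasureTheory Asymptotics

/-- The product, with multiplicity, of the prime factors of `m` that are larger than `p`. -/
def roughPart (p m : ℕ) : ℕ := (m.primeFactorsList.filter (fun r => p < r)).prod

/-- The `p`-rough part of the largest integer below `β * 2 ^ p`. -/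
noncomputable def W (β : ℝ) (p : ℕ) : ℕ := roughPart p (⌈β * 2 ^ p⌉₊ - 1)

open Classical in
/-- The number of primes `p ≤ n` in the set `S` for which `W β p` is prime. -/
noncomputable def M (S : Set ℕ) (β : ℝ) (n : ℕ) : ℕ :=
  ((Finset.range (n + 1)).filter (fun p => p.Prime ∧ p ∈ S ∧ (W β p).Prime)).card

open Classical in
/-- The sum of `log p / p` over the primes `p ≤ n` in the set `S`. -/
noncomputable def V (S : Set ℕ) (n : ℕ) : ℝ :=
  ∑ p ∈ (Finset.range (n + 1)).filter (fun p => p.Prime ∧ p ∈ S), Real.log p / p

lemma V_eq (S : Set ℕ) (n : ℕ) : V S n = Pool.Agent.TH888.R.VS S n := by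
  classical
  unfold V Pool.Agent.TH888.R.VS
  rw [Finset.sum_filter]
  refine Finset.sum_congr rfl fun p _ => ?_
  by_cases h : p.Prime ∧ p ∈ S
  · rw [if_pos h, if_pos ⟨h.2, h.1⟩]
    rfl
  · rw [if_neg h, if_neg fun h1 => h ⟨h1.2, h1.1⟩]

lemma W_one {p : ℕ} (hp : p.Prime) : W 1 p = 2 ^ p - 1 := by
  have e1 : ⌈(1 : ℝ) * 2 ^ p⌉₊ = 2 ^ p := by
    rw [one_mul]
    have : ((2 : ℝ) ^ p) = ((2 ^ p : ℕ) : ℝ) := by push_cast; rfl
    rw [this, Nat.ceil_natCast]
  unfold W
  rw [e1]
  unfold roughPart
  rw [List.filter_eq_self.2, Nat.prod_primeFactorsList]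
  · have h := hp.two_le
    have : 2 ^ 2 ≤ 2 ^ p := Nat.pow_le_pow_right (by norm_num) h
    omega
  · intro r hr
    obtain ⟨hr1, hr2⟩ := Nat.mem_primeFactorsList'.1 hr
    have hr2' := hr2.1
    have : Fact r.Prime := ⟨hr1⟩
    have : Fact p.Prime := ⟨hp⟩
    have h1 : (2 : ZMod r) ^ p = 1 := by
      have h3 : ((2 ^ p - 1 : ℕ) : ZMod r) = 0 := (ZMod.natCast_eq_zero_iff _ _).2 hr2'
      rw [Nat.cast_sub Nat.one_le_two_pow] at h3
      push_cast at h3
      exact sub_eq_zero.1 h3
    have h2 : (2 : ZMod r) ≠ 1 := by
      intro h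
      have : (1 : ZMod r) = 0 := by linear_combination h
      exact one_ne_zero this
    have h4 : orderOf (2 : ZMod r) = p := orderOf_eq_prime h1 h2
    have h5 : (2 : ZMod r) ≠ 0 := by
      intro h
      rw [h, zero_pow hp.ne_zero] at h1
      exact zero_ne_one h1
    have h6 : orderOf (2 : ZMod r) ∣ r - 1 := orderOf_dvd_of_pow_eq_one (ZMod.pow_card_sub_one_eq_one h5)
    rw [h4] at h6
    have h7 : p ≤ r - 1 := Nat.le_of_dvd (by have := hr1.two_le; omega) h6
    have := hr1.two_le
    simp only [decide_eq_true_eq]
    omega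

lemma M_eq (S : Set ℕ) (β : ℝ) (n : ℕ) :
    M S β n = Pool.Agent.TH888.R.cS S (fun p => ⌈β * 2 ^ p⌉₊ - 1) n := rfl

/-- The counting function at `β = 1` is that of the Mersenne primes; for every set of primes of
divergent weight and almost every amplitude, with the base `2` fixed, the law holds with a square
root error term in terms of the weight alone, in particular for the set of all primes. -/
theorem result :
    (∀ n : ℕ, M Set.univ 1 n =
      ((Finset.range (n + 1)).filter (fun p => p.Prime ∧ (2 ^ p - 1).Prime)).card) ∧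
    (∀ S : Set ℕ, Tendsto (V S) atTop atTop → ∀ᵐ β : ℝ, 0 < β →
      (fun n : ℕ => (M S β n : ℝ) -
        Real.exp Real.eulerMascheroniConstant / Real.log 2 * V S n) =O[atTop]
      (fun n : ℕ => Real.sqrt (V S n) * (Real.log (V S n)) ^ 2)) ∧
    (∀ᵐ β : ℝ, 0 < β →
      (fun n : ℕ => (M Set.univ β n : ℝ) -
        Real.exp Real.eulerMascheroniConstant / Real.log 2 * Real.log n) =O[atTop]
      (fun n : ℕ => Real.sqrt (Real.log n) * (Real.log (Real.log n)) ^ 2)) := by
  have hV : ∀ S, V S = Pool.Agent.TH888.R.VS S := fun S => funext fun n => V_eq S n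
  refine ⟨fun n => ?_, fun S hS => ?_, ?_⟩
  · unfold M
    congr 1
    ext p
    simp only [Finset.mem_filter, Set.mem_univ, true_and]
    exact and_congr_right fun _ => and_congr_right fun hp => by rw [W_one hp]
  · rw [hV] at hS ⊢
    filter_upwards [Pool.Agent.H176M.law_two Pool.Agent.H176M.silS S hS] with β hβ h0
    obtain ⟨B, hB, h⟩ := hβ h0
    simp only [M_eq]
    exact Pool.Agent.H176M.bigO_set1 hB hS h
  · filter_upwards [Pool.Agent.H176M.law_two Pool.Agent.H176M.silS Set.univ
      Pool.Agent.TH888.R.VS_univ_tendsto] with β hβ h0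
    obtain ⟨B, hB, h⟩ := hβ h0
    simp only [M_eq]
    exact Pool.Agent.H176M.bigO_all1 hB h

end Pool.Agent.Results.MP_9b2bac_nt.SparseSetsLaw
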